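import Mathlib

/-!
# Supersaturation for weighted independent sets with small forbidden edges

We refute the bound `e(F) ≥ c k ^ (f / (h - β))`: for all integers `f ≥ 3`, `β ≥ 0` and
`h > f + β` there is a hereditary family of `(h, f, f)`-bounded pairs satisfying all the
hypotheses, which contains pairs violating the bound for arbitrarily large `k`.
-/

namespace Pool.Agent.Results.MP_362e7f_co.SmallForbiddenEdges

open Finset

/-- A hypergraph pair: two hypergraphs `H`, `F` (multisets of edges) on the common finite vertex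
set `V`. -/
structure HPair (Ω : Type) where
  /-- the vertex set -/
  V : Finset Ω
  /-- the edges of the first hypergraph -/
  H : Multiset (Finset Ω)
  /-- the edges of the second hypergraph -/
  F : Multiset (Finset Ω)
  subH : ∀ e ∈ H, e ⊆ V
  subF : ∀ e ∈ F, e ⊆ V

variable {Ω : Type} [DecidableEq Ω]

/-- The hypergraph formed by the edges inside `S`. -/
def inside (E : Multiset (Finset Ω)) (S : Finset Ω) : Multiset (Finset Ω) :=
  E.filter fun e => e ⊆ S

/-- The restriction `(H[S], F[S])` of a pair to the vertex set `S`. -/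
def HPair.restrict (Q : HPair Ω) (S : Finset Ω) : HPair Ω where
  V := S
  H := inside Q.H S
  F := inside Q.F S
  subH := fun _ he => (Multiset.mem_filter.1 he).2
  subF := fun _ he => (Multiset.mem_filter.1 he).2

/-- `α_H(F) = max {e(H[I]) : I independent in F}`. -/
def alpha (Q : HPair Ω) : ℕ :=
  (Q.V.powerset.filter fun I => (inside Q.F I).card = 0).sup fun I => (inside Q.H I).card

/-- The hypotheses (*) on a family `P` of hypergraph pairs and on `h`, `f`, `f'`, `β`. -/
structure Hyp (P : Set (HPair Ω)) (h f f' : ℕ) (β : ℝ) : Prop where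
  hereditary : ∀ Q ∈ P, ∀ S ⊆ Q.V, Q.restrict S ∈ P
  pos : 0 < f ∧ f ≤ f' ∧ 0 < h
  boundedH : ∀ Q ∈ P, ∀ e ∈ Q.H, e.card ≤ h
  boundedF : ∀ Q ∈ P, ∀ e ∈ Q.F, f ≤ e.card ∧ e.card ≤ f'
  beta_lt : β < h
  /-- `ex(n, P) = O(n ^ β)` -/
  ex_bound : ∃ C : ℝ, ∀ n : ℕ, ∀ Q ∈ P, Q.V.card = n → (alpha Q : ℝ) ≤ C * (n : ℝ) ^ β
  f_lt : (f : ℝ) < h - β
  not_contained : ∀ Q ∈ P, ∀ e ∈ Q.F, ∀ e' ∈ Q.H, ¬ e ⊆ e'

/-! ### The construction -/

/-- The vertex universe: `a` special vertices, `j` infinite groups, and an infinite set. -/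
abbrev Om (a j : ℕ) : Type := Fin a ⊕ ((Fin j × ℕ) ⊕ ℕ)

/-- All special vertices, one vertex from each group, and the set `B`. -/
def hEdge (a j : ℕ) (g : Fin j → ℕ) (B : Finset ℕ) : Finset (Om a j) :=
  (univ : Finset (Fin a)).disjSum (((univ : Finset (Fin j)).image fun i => (i, g i)).disjSum B)

/-- All special vertices and two vertices of one group. -/
def fEdge (a j : ℕ) (i : Fin j) (x y : ℕ) : Finset (Om a j) :=
  (univ : Finset (Fin a)).disjSum (({(i, x), (i, y)} : Finset (Fin j × ℕ)).disjSum ∅)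

/-- The vertex set with groups of size `q` and `w` extra vertices. -/
def vSet (a j q w : ℕ) : Finset (Om a j) :=
  (univ : Finset (Fin a)).disjSum (((univ : Finset (Fin j)) ×ˢ range q).disjSum (range w))

/-- The first hypergraph. -/
def hSet (a j q w b : ℕ) : Finset (Finset (Om a j)) :=
  (Fintype.piFinset (fun _ : Fin j => range q) ×ˢ powersetCard b (range w)).image
    fun p => hEdge a j p.1 p.2

/-- The second hypergraph. -/
def fSet (a j q : ℕ) : Finset (Finset (Om a j)) :=
  ((univ ×ˢ (range q ×ˢ range q)).filter fun p : Fin j × ℕ × ℕ => p.2.1 < p.2.2).image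
    fun p => fEdge a j p.1 p.2.1 p.2.2

lemma mem_hEdge_inl {a j : ℕ} {g : Fin j → ℕ} {B : Finset ℕ} (z : Fin a) :
    (Sum.inl z : Om a j) ∈ hEdge a j g B := by
  simp [hEdge]

lemma mem_hEdge_grp {a j : ℕ} {g : Fin j → ℕ} {B : Finset ℕ} (i : Fin j) (x : ℕ) :
    (Sum.inr (Sum.inl (i, x)) : Om a j) ∈ hEdge a j g B ↔ x = g i := by
  simp only [hEdge, inr_mem_disjSum, inl_mem_disjSum, mem_image, mem_univ, true_and,
    Prod.mk.injEq]
  constructor
  · rintro ⟨i', rfl, rfl⟩; rfl
  · rintro rfl; exact ⟨i, rfl, rfl⟩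

lemma mem_hEdge_ext {a j : ℕ} {g : Fin j → ℕ} {B : Finset ℕ} (x : ℕ) :
    (Sum.inr (Sum.inr x) : Om a j) ∈ hEdge a j g B ↔ x ∈ B := by
  simp only [hEdge, inr_mem_disjSum]

lemma hEdge_card (a j : ℕ) (g : Fin j → ℕ) (B : Finset ℕ) :
    (hEdge a j g B).card = a + (j + B.card) := by
  rw [hEdge, card_disjSum, card_disjSum, card_image_of_injective _
    (fun i i' h => (Prod.mk.inj h).1)]
  simp

lemma fEdge_card (a j : ℕ) (i : Fin j) (x y : ℕ) (h : x ≠ y) :
    (fEdge a j i x y).card = a + 2 := by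
  rw [fEdge, card_disjSum, card_disjSum, card_pair (by simpa using h)]
  simp

lemma hEdge_inj {a j : ℕ} {g g' : Fin j → ℕ} {B B' : Finset ℕ}
    (h : hEdge a j g B = hEdge a j g' B') : g = g' ∧ B = B' := by
  constructor
  · funext i
    rw [← mem_hEdge_grp (a := a) (g := g') (B := B') i (g i), ← h, mem_hEdge_grp]
  · ext x
    rw [← mem_hEdge_ext (a := a) (g := g) (B := B), h, mem_hEdge_ext]

/-- The base pair. -/
def basePair (a j q w b : ℕ) : HPair (Om a j) where
  V := vSet a j q w
  H := (hSet a j q w b).val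
  F := (fSet a j q).val
  subH := by
    intro e he
    rw [Finset.mem_val, hSet, mem_image] at he
    obtain ⟨⟨g, B⟩, hp, rfl⟩ := he
    rw [mem_product, Fintype.mem_piFinset, mem_powersetCard] at hp
    intro v hv
    rcases v with z | ⟨i, x⟩ | x
    · simp [vSet]
    · rw [mem_hEdge_grp] at hv
      subst hv
      simpa [vSet] using hp.1 i
    · rw [mem_hEdge_ext] at hv
      simpa [vSet] using hp.2.1 hv
  subF := by
    intro e he
    rw [Finset.mem_val, fSet, mem_image] at he
    obtain ⟨⟨i, x, y⟩, hp, rfl⟩ := he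
    rw [mem_filter, mem_product, mem_product, mem_range, mem_range] at hp
    intro v hv
    rcases v with z | ⟨i', x'⟩ | x'
    · simp [vSet]
    · simp only [fEdge, inr_mem_disjSum, inl_mem_disjSum, mem_insert, mem_singleton,
        Prod.mk.injEq] at hv
      simp only [vSet, inr_mem_disjSum, inl_mem_disjSum, mem_product, mem_univ, mem_range,
        true_and]
      rcases hv with ⟨_, rfl⟩ | ⟨_, rfl⟩
      · exact hp.1.2.1
      · exact hp.1.2.2
    · simp [fEdge] at hv

/-- The family: all pairs (on finite subsets of `Ω`) satisfying the hypotheses with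
`α ≤ |I| ^ b`. -/
def family (Ω : Type) [DecidableEq Ω] (h f b : ℕ) : Set (HPair Ω) :=
  {Q | (∀ e ∈ Q.H, e.card ≤ h) ∧ (∀ e ∈ Q.F, e.card = f) ∧
    (∀ e ∈ Q.F, ∀ e' ∈ Q.H, ¬ e ⊆ e') ∧
    ∀ I ⊆ Q.V, (inside Q.F I).card = 0 → (inside Q.H I).card ≤ I.card ^ b}

lemma inside_inside (E : Multiset (Finset Ω)) {S I : Finset Ω} (h : I ⊆ S) :
    inside (inside E S) I = inside E I := by
  unfold inside
  rw [Multiset.filter_filter]
  apply Multiset.filter_congr
  intro e _
  exact ⟨fun h' => h'.1, fun h' => ⟨h', h'.trans h⟩⟩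

lemma family_hyp (h f b : ℕ) (hf : 0 < f) (hfb : f + b < h) :
    Hyp (family Ω h f b) h f f b where
  hereditary := by
    rintro Q ⟨h1, h2, h3, h4⟩ S hS
    refine ⟨?_, ?_, ?_, ?_⟩
    · intro e he; exact h1 e (Multiset.mem_filter.1 he).1
    · intro e he; exact h2 e (Multiset.mem_filter.1 he).1
    · intro e he e' he'
      exact h3 e (Multiset.mem_filter.1 he).1 e' (Multiset.mem_filter.1 he').1
    · intro I hI hI0
      change I ⊆ S at hI
      have e1 : inside (Q.restrict S).F I = inside Q.F I := inside_inside _ hI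
      have e2 : inside (Q.restrict S).H I = inside Q.H I := inside_inside _ hI
      rw [e1] at hI0
      rw [e2]
      exact h4 I (hI.trans hS) hI0
  pos := ⟨hf, le_rfl, by omega⟩
  boundedH := fun Q hQ => hQ.1
  boundedF := fun Q hQ e he => ⟨(hQ.2.1 e he).ge, (hQ.2.1 e he).le⟩
  beta_lt := by exact_mod_cast (by omega : b < h)
  ex_bound := by
    refine ⟨1, ?_⟩
    rintro n Q ⟨h1, h2, h3, h4⟩ hn
    rw [one_mul, Real.rpow_natCast]
    have : alpha Q ≤ n ^ b := by
      unfold alpha
      apply Finset.sup_le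
      intro I hI
      rw [mem_filter, mem_powerset] at hI
      refine (h4 I hI.1 hI.2).trans ?_
      rw [← hn]
      exact Nat.pow_le_pow_left (card_le_card hI.1) b
    exact_mod_cast this
  f_lt := by
    have : ((f + b : ℕ) : ℝ) < (h : ℝ) := by exact_mod_cast hfb
    push_cast at this
    linarith
  not_contained := fun Q hQ => hQ.2.2.1

lemma base_mem (a j q w b : ℕ) : basePair a j q w b ∈ family (Om a j) (a + (j + b)) (a + 2) b := by
  have hHmem : ∀ e ∈ (basePair a j q w b).H, ∃ g B, B.card = b ∧ e = hEdge a j g B := by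
    intro e he
    change e ∈ (hSet a j q w b).val at he
    rw [Finset.mem_val, hSet, mem_image] at he
    obtain ⟨⟨g, B⟩, hp, rfl⟩ := he
    rw [mem_product, mem_powersetCard] at hp
    exact ⟨g, B, hp.2.2, rfl⟩
  refine ⟨?_, ?_, ?_, ?_⟩
  · intro e he
    obtain ⟨g, B, hB, rfl⟩ := hHmem e he
    rw [hEdge_card, hB]
  · intro e he
    change e ∈ (fSet a j q).val at he
    rw [Finset.mem_val, fSet, mem_image] at he
    obtain ⟨⟨i, x, y⟩, hp, rfl⟩ := he
    rw [mem_filter] at hp
    exact fEdge_card a j i x y hp.2.ne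
  · intro e he e' he' hsub
    obtain ⟨g, B, hB, rfl⟩ := hHmem e' he'
    change e ∈ (fSet a j q).val at he
    rw [Finset.mem_val, fSet, mem_image] at he
    obtain ⟨⟨i, x, y⟩, hp, rfl⟩ := he
    rw [mem_filter] at hp
    have h1 := hsub (show (Sum.inr (Sum.inl (i, x)) : Om a j) ∈ fEdge a j i x y by simp [fEdge])
    have h2 := hsub (show (Sum.inr (Sum.inl (i, y)) : Om a j) ∈ fEdge a j i x y by simp [fEdge])
    rw [mem_hEdge_grp] at h1 h2
    have := hp.2
    simp only at this
    omega
  · intro I hI hI0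
    have hind : ∀ e ∈ fSet a j q, ¬ e ⊆ I := by
      intro e he hsub
      rw [Multiset.card_eq_zero] at hI0
      have : e ∈ inside (basePair a j q w b).F I := by
        unfold inside
        rw [Multiset.mem_filter]
        exact ⟨he, hsub⟩
      rw [hI0] at this
      simp at this
    have e1 : (inside (basePair a j q w b).H I).card =
        ((hSet a j q w b).filter fun e => e ⊆ I).card := rfl
    rw [e1]
    -- the set of extra vertices of `I`
    let W : Finset ℕ := (range w).filter fun x => (Sum.inr (Sum.inr x) : Om a j) ∈ I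
    have hWcard : W.card ≤ I.card := by
      apply card_le_card_of_injOn (fun x => (Sum.inr (Sum.inr x) : Om a j))
      · intro x hx
        rw [mem_coe, mem_filter] at hx
        exact hx.2
      · intro x _ y _ h
        simpa using h
    have h1 : ((hSet a j q w b).filter fun e => e ⊆ I) ⊆
        ((hSet a j q w b).filter fun e => e ⊆ I) := subset_rfl
    by_cases hemp : ((hSet a j q w b).filter fun e => e ⊆ I) = ∅
    · rw [hemp]; simp
    obtain ⟨e0, he0⟩ := nonempty_iff_ne_empty.2 hemp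
    rw [mem_filter, hSet, mem_image] at he0
    obtain ⟨⟨⟨g0, B0⟩, hp0, rfl⟩, hsub0⟩ := he0
    rw [mem_product, Fintype.mem_piFinset, mem_powersetCard] at hp0
    have hsub : ((hSet a j q w b).filter fun e => e ⊆ I) ⊆
        (powersetCard b W).image fun B => hEdge a j g0 B := by
      intro e he
      rw [mem_filter, hSet, mem_image] at he
      obtain ⟨⟨⟨g, B⟩, hp, rfl⟩, hsub⟩ := he
      rw [mem_product, Fintype.mem_piFinset, mem_powersetCard] at hp
      simp only at hp hsub hsub0 hp0
      have hg : g = g0 := by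
        by_contra hne
        obtain ⟨i, hi⟩ := Function.ne_iff.1 hne
        -- a forbidden edge inside `I`
        have hforb : ∀ x y, x < q → y < q → x < y →
            (Sum.inr (Sum.inl (i, x)) : Om a j) ∈ I → (Sum.inr (Sum.inl (i, y)) : Om a j) ∈ I →
            False := by
          intro x y hx hy hxy hxI hyI
          refine hind (fEdge a j i x y) ?_ ?_
          · rw [fSet, mem_image]
            refine ⟨(i, x, y), ?_, rfl⟩
            rw [mem_filter, mem_product, mem_product, mem_range, mem_range]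
            exact ⟨⟨mem_univ _, hx, hy⟩, hxy⟩
          · intro v hv
            rcases v with z | ⟨i', x'⟩ | x'
            · exact hsub0 (mem_hEdge_inl z)
            · simp only [fEdge, inr_mem_disjSum, inl_mem_disjSum, mem_insert, mem_singleton,
                Prod.mk.injEq] at hv
              rcases hv with ⟨rfl, rfl⟩ | ⟨rfl, rfl⟩
              · exact hxI
              · exact hyI
            · simp [fEdge] at hv
        have m1 : (Sum.inr (Sum.inl (i, g i)) : Om a j) ∈ I :=
          hsub ((mem_hEdge_grp i (g i)).2 rfl)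
        have m2 : (Sum.inr (Sum.inl (i, g0 i)) : Om a j) ∈ I :=
          hsub0 ((mem_hEdge_grp i (g0 i)).2 rfl)
        have l1 := mem_range.1 (hp.1 i)
        have l2 := mem_range.1 (hp0.1 i)
        rcases lt_or_gt_of_ne hi with h | h
        · exact hforb _ _ l1 l2 h m1 m2
        · exact hforb _ _ l2 l1 h m2 m1
      subst hg
      rw [mem_image]
      refine ⟨B, ?_, rfl⟩
      rw [mem_powersetCard]
      refine ⟨?_, hp.2.2⟩
      intro x hx
      rw [mem_filter]
      exact ⟨hp.2.1 hx, hsub ((mem_hEdge_ext x).2 hx)⟩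
    calc ((hSet a j q w b).filter fun e => e ⊆ I).card ≤ _ := card_le_card hsub
      _ ≤ (powersetCard b W).card := card_image_le
      _ = W.card.choose b := card_powersetCard _ _
      _ ≤ W.card ^ b := Nat.choose_le_pow _ _
      _ ≤ I.card ^ b := Nat.pow_le_pow_left hWcard b

lemma base_H (a j q w b : ℕ) : (basePair a j q w b).H.card = q ^ j * w.choose b := by
  change (hSet a j q w b).card = _
  rw [hSet, card_image_of_injOn, card_product, Fintype.card_piFinset, card_powersetCard]
  · simp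
  · rintro ⟨g, B⟩ _ ⟨g', B'⟩ _ h
    obtain ⟨rfl, rfl⟩ := hEdge_inj h
    rfl

lemma base_F (a j q w b : ℕ) : (basePair a j q w b).F.card ≤ j * q ^ 2 := by
  change (fSet a j q).card ≤ _
  calc (fSet a j q).card ≤ _ := card_image_le
    _ ≤ _ := card_filter_le _ _
    _ = j * q ^ 2 := by
      rw [card_product, card_product, card_univ, Fintype.card_fin, card_range]
      ring

lemma base_V (a j q w b : ℕ) : (basePair a j q w b).V.card = a + (j * q + w) := by
  change (vSet a j q w).card = _
  simp [vSet]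

/-- Choosing the number of extra vertices. -/
lemma choose_lower (b n w : ℕ) (hn : n ≤ 2 * w) (hw : 2 * b ≤ w) :
    n ^ b ≤ 4 ^ b * b.factorial * w.choose b := by
  have h1 : (w + 1 - b) ^ b ≤ b.factorial * w.choose b := by
    rw [← Nat.descFactorial_eq_factorial_mul_choose]
    exact Nat.pow_sub_le_descFactorial w b
  calc n ^ b ≤ (4 * (w + 1 - b)) ^ b := Nat.pow_le_pow_left (by omega) b
    _ = 4 ^ b * (w + 1 - b) ^ b := by rw [mul_pow]
    _ ≤ 4 ^ b * (b.factorial * w.choose b) := Nat.mul_le_mul_left _ h1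
    _ = _ := by ring

/-- **Main result.** For all integers `f ≥ 3`, `b ≥ 0` and `h > f + b`, there is a family `P` of
hypergraph pairs that satisfies the hypotheses (*) with `f' = f` and `β = b`, but such that
for all `k₀` and all `c > 0` there are a pair `(H, F)` in `P` on `n` vertices
and a real `k ≥ k₀`, `k > 0`, with `e(H) ≥ k n ^ β` and `e(F) < c k ^ (f / (h - β))`. -/
theorem result (h f b : ℕ) (hf : 3 ≤ f) (hfb : f + b < h) :
    ∃ (Ω : Type) (_ : DecidableEq Ω) (P : Set (HPair Ω)), Hyp P h f f (b : ℝ) ∧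
      ∀ k₀ c : ℝ, 0 < c → ∃ Q ∈ P, ∃ k : ℝ, k₀ ≤ k ∧ 0 < k ∧
        k * (Q.V.card : ℝ) ^ (b : ℝ) ≤ Q.H.card ∧
        (Q.F.card : ℝ) < c * k ^ ((f : ℝ) / ((h : ℝ) - b)) := by
  obtain ⟨a, rfl⟩ : ∃ a, f = a + 2 := ⟨f - 2, by omega⟩
  obtain ⟨j, rfl⟩ : ∃ j, h = a + (j + b) := ⟨h - a - b, by omega⟩
  have ha : 1 ≤ a := by omega
  have hj : 3 ≤ j := by omega
  refine ⟨Om a j, inferInstance, family (Om a j) (a + (j + b)) (a + 2) b,
    family_hyp _ _ _ (by omega) hfb, ?_⟩
  intro k₀ c hc
  set D : ℝ := 4 ^ b * b.factorial with hD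
  have hDpos : 0 < D := by positivity
  set s : ℝ := ((a + 2 : ℕ) : ℝ) / (((a + (j + b) : ℕ) : ℝ) - b) with hs
  have hden : (((a + (j + b) : ℕ) : ℝ) - b) = (a : ℝ) + j := by push_cast; ring
  have hjs : 0 < (j : ℝ) * s - 2 := by
    rw [hs, hden]
    have h0 : (0 : ℝ) < (a : ℝ) + j := by positivity
    rw [sub_pos, ← mul_div_assoc, lt_div_iff₀ h0]
    have h1 : (1 : ℝ) ≤ a := by exact_mod_cast ha
    have h2 : (3 : ℝ) ≤ j := by exact_mod_cast hj
    push_cast
    nlinarith
  -- choose `q`
  have hlim1 : Filter.Tendsto (fun q : ℕ => ((q : ℝ)) ^ ((j : ℝ) * s - 2)) Filter.atTop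
      Filter.atTop := (tendsto_rpow_atTop hjs).comp tendsto_natCast_atTop_atTop
  have hlim2 : Filter.Tendsto (fun q : ℕ => ((q : ℝ)) ^ j) Filter.atTop Filter.atTop :=
    (Filter.tendsto_pow_atTop (by omega)).comp tendsto_natCast_atTop_atTop
  obtain ⟨q, hq1, hq2, hq3⟩ := ((hlim1.eventually_gt_atTop ((j : ℝ) * D ^ s / c)).and
    ((hlim2.eventually_ge_atTop (k₀ * D)).and (Filter.eventually_ge_atTop 1))).exists
  have hq0 : (0 : ℝ) < q := by exact_mod_cast hq3
  -- choose `w`
  set w := a + j * q + 2 * b with hw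
  refine ⟨basePair a j q w b, base_mem a j q w b, (q : ℝ) ^ j / D, ?_, by positivity, ?_, ?_⟩
  · rw [le_div_iff₀ hDpos]; exact hq2
  · rw [base_V, base_H, Real.rpow_natCast]
    have h1 := choose_lower b (a + (j * q + w)) w (by omega) (by omega)
    have h2 : (((a + (j * q + w) : ℕ) : ℝ)) ^ b ≤ D * (w.choose b : ℝ) := by
      rw [hD]
      exact_mod_cast h1
    rw [div_mul_eq_mul_div, div_le_iff₀ hDpos]
    push_cast at h2 ⊢
    calc (q : ℝ) ^ j * ((a : ℝ) + ((j : ℝ) * q + w)) ^ b
        ≤ (q : ℝ) ^ j * (D * (w.choose b : ℝ)) := by gcongr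
      _ = (q : ℝ) ^ j * (w.choose b : ℝ) * D := by ring
  · have h1 : ((basePair a j q w b).F.card : ℝ) ≤ (j : ℝ) * (q : ℝ) ^ 2 := by
      exact_mod_cast base_F a j q w b
    refine h1.trans_lt ?_
    rw [Real.div_rpow (by positivity) hDpos.le]
    have h2 : ((q : ℝ) ^ j) ^ s = (q : ℝ) ^ ((j : ℝ) * s - 2) * (q : ℝ) ^ 2 := by
      rw [← Real.rpow_natCast (q : ℝ) j, ← Real.rpow_mul hq0.le, ← Real.rpow_natCast (q : ℝ) 2,
        ← Real.rpow_add hq0]
      congr 1
      push_cast
      ring
    rw [h2]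
    have hDs : 0 < D ^ s := Real.rpow_pos_of_pos hDpos s
    rw [div_lt_iff₀ hc] at hq1
    rw [← mul_div_assoc, lt_div_iff₀ hDs]
    have h3 : (0 : ℝ) < (q : ℝ) ^ 2 := by positivity
    nlinarith [mul_lt_mul_of_pos_right hq1 h3]

end Pool.Agent.Results.MP_362e7f_co.SmallForbiddenEdges
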